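import Pool.Agent.helper7.FI2.SpecK

set_option autoImplicit false

namespace Pool.Agent.FI2

open Pool.Agent.helper58.DC Pool.Agent.DI Pool.Agent.GR Pool.Agent.OB Pool.Agent.DR Pool.Agent.FI

theorem FCN2_mul {Γ : Type} [Group Γ] (a b : Γ) (ψ : Γ → ℂ) :
    funMap (MulAut.conj a) (funMap (MulAut.conj b) ψ) = funMap (MulAut.conj (a * b)) ψ := by
  funext g
  simp [funMap, mul_assoc]

theorem FCN2_orb {Γ : Type} [Group Γ] (N : Subgroup Γ) (ψ : Γ → ℂ) (n : Γ) (hn : n ∈ N) :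
    {θ : Γ → ℂ | ∃ m ∈ N, θ = funMap (MulAut.conj m) (funMap (MulAut.conj n) ψ)} =
      {θ : Γ → ℂ | ∃ m ∈ N, θ = funMap (MulAut.conj m) ψ} := by
  ext θ
  constructor
  · rintro ⟨m, hm, rfl⟩
    exact ⟨m * n, N.mul_mem hm hn, FCN2_mul m n ψ⟩
  · rintro ⟨m, hm, rfl⟩
    refine ⟨m * n⁻¹, N.mul_mem hm (N.inv_mem hn), ?_⟩
    rw [FCN2_mul]
    congr 2
    group

theorem FCN2 (hFCL2 : FCL2_stmt) (hCFA : CFA_stmt) (hCCJ : CCJ_stmt) (hIF : IF_stmt) : FCN2_stmt := by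
  classical
  intro Γ _ _ K N hKN hNK B hB hst hcy
  have hBfin : B.Finite := ((hIF Γ K).1).subset hB
  set R : (Γ → ℂ) → (Γ → ℂ) → Prop := fun φ ψ => ∃ e : ℕ, 0 < e ∧ OverE K N φ ψ e with hR
  set Φ : Set (Γ → ℂ) := {φ | φ ∈ IrrOn N ∧ ∃ ψ ∈ B, ∃ e : ℕ, 0 < e ∧ OverE K N φ ψ e} with hΦ
  have hΦfin : Φ.Finite := ((hIF Γ N).1).subset (fun φ h => h.1)
  -- for a given `ψ`
  have hpsi : ∀ ψ ∈ B, ∑ φ ∈ hΦfin.toFinset, (if R φ ψ then Nat.card K * Nat.card (stF N ψ) else 0) =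
      nP K (stF N ψ) := by
    intro ψ hψ
    obtain ⟨h1, -⟩ := hFCL2 Γ K N hKN hNK ψ (hB hψ) (hcy ψ hψ)
    have hset : {φ : Γ → ℂ | φ ∈ IrrOn N ∧ ∃ e : ℕ, 0 < e ∧ OverE K N φ ψ e} =
        ((hΦfin.toFinset.filter fun φ => R φ ψ : Finset (Γ → ℂ)) : Set (Γ → ℂ)) := by
      ext φ
      simp only [Set.mem_ofPred_eq, Finset.coe_filter, Set.Finite.mem_toFinset]
      constructor
      · rintro ⟨h4, h5⟩
        exact ⟨⟨h4, ψ, hψ, h5⟩, h5⟩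
      · rintro ⟨h4, h5⟩
        exact ⟨h4.1, h5⟩
    rw [hset, Set.ncard_coe_finset] at h1
    rw [← Finset.sum_filter, Finset.sum_const, smul_eq_mul, h1]
  -- for a given `φ`
  have hphi : ∀ φ ∈ Φ, ∑ ψ ∈ hBfin.toFinset, (if R φ ψ then Nat.card K * Nat.card (stF N ψ) else 0) =
      Nat.card K * Nat.card N := by
    rintro φ ⟨hφ, ψ₀, hψ₀, e₀, he₀, hov⟩
    have hN := (hCCJ Γ K N hNK ψ₀ (hB hψ₀)).2.2.1
    have hfil : ∀ ψ, (ψ ∈ hBfin.toFinset ∧ R φ ψ) ↔ ∃ n ∈ N, ψ = funMap (MulAut.conj n) ψ₀ := by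
      intro ψ
      rw [Set.Finite.mem_toFinset]
      constructor
      · rintro ⟨h1, e, he, h2⟩
        exact ((hCFA Γ K N hKN hNK).2 φ ψ₀ (hB hψ₀) ψ (hB h1) e₀ e he₀ he hov h2).2
      · rintro ⟨n, hn, rfl⟩
        refine ⟨hst n hn ψ₀ hψ₀, e₀, he₀, ?_⟩
        intro x hx
        rw [hov x hx, FCN2_orb N ψ₀ n hn]
    have hcard : ∀ ψ, (∃ n ∈ N, ψ = funMap (MulAut.conj n) ψ₀) →
        Nat.card (stF N ψ) = Nat.card (stF N ψ₀) := by
      rintro ψ ⟨n, hn, rfl⟩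
      have h1 := (hCCJ Γ K N hNK (funMap (MulAut.conj n) ψ₀) (hB (hst n hn ψ₀ hψ₀))).2.2.1
      have h2 : Nat.card {θ : Γ → ℂ // ∃ m ∈ N, θ = funMap (MulAut.conj m) (funMap (MulAut.conj n) ψ₀)} =
          Nat.card {θ : Γ → ℂ // ∃ m ∈ N, θ = funMap (MulAut.conj m) ψ₀} :=
        congrArg (fun S : Set (Γ → ℂ) => Nat.card S) (FCN2_orb N ψ₀ n hn)
      rw [h2] at h1
      have h3 : 0 < Nat.card {θ : Γ → ℂ // ∃ m ∈ N, θ = funMap (MulAut.conj m) ψ₀} := by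
        rcases Nat.eq_zero_or_pos (Nat.card {θ : Γ → ℂ // ∃ m ∈ N, θ = funMap (MulAut.conj m) ψ₀}) with h | h
        · rw [h, zero_mul] at hN
          have : 0 < Nat.card N := Nat.card_pos
          omega
        · exact h
      exact Nat.eq_of_mul_eq_mul_left h3 (h1.trans hN.symm)
    have hset : {θ : Γ → ℂ | ∃ n ∈ N, θ = funMap (MulAut.conj n) ψ₀} =
        ((hBfin.toFinset.filter fun ψ => R φ ψ : Finset (Γ → ℂ)) : Set (Γ → ℂ)) := by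
      ext ψ
      rw [Finset.mem_coe, Finset.mem_filter, hfil ψ]
      exact Iff.rfl
    have hc : Nat.card {θ : Γ → ℂ // ∃ n ∈ N, θ = funMap (MulAut.conj n) ψ₀} =
        (hBfin.toFinset.filter fun ψ => R φ ψ).card := by
      have h1 : Nat.card {θ : Γ → ℂ // ∃ n ∈ N, θ = funMap (MulAut.conj n) ψ₀} =
          Set.ncard {θ : Γ → ℂ | ∃ n ∈ N, θ = funMap (MulAut.conj n) ψ₀} := rfl
      rw [h1, hset, Set.ncard_coe_finset]
    rw [hc] at hN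
    rw [← Finset.sum_filter, ← hN]
    rw [Finset.sum_congr rfl (g := fun _ => Nat.card K * Nat.card (stF N ψ₀)), Finset.sum_const, smul_eq_mul]
    · ring
    · intro ψ hψ
      rw [Finset.mem_filter, hfil ψ] at hψ
      show Nat.card K * Nat.card (stF N ψ) = Nat.card K * Nat.card (stF N ψ₀)
      rw [hcard ψ hψ]
  -- double counting
  have hcomm := Finset.sum_comm (s := hΦfin.toFinset) (t := hBfin.toFinset)
    (f := fun φ ψ => if R φ ψ then Nat.card K * Nat.card (stF N ψ) else 0)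
  have hL : ∑ φ ∈ hΦfin.toFinset, ∑ ψ ∈ hBfin.toFinset,
      (if R φ ψ then Nat.card K * Nat.card (stF N ψ) else 0) = Nat.card K * (Nat.card N * Φ.ncard) := by
    rw [Finset.sum_congr rfl (g := fun _ => Nat.card K * Nat.card N), Finset.sum_const, smul_eq_mul,
      ← Set.ncard_eq_toFinset_card _ hΦfin]
    · ring
    · intro φ hφ
      exact hphi φ (hΦfin.mem_toFinset.1 hφ)
  have hRR : ∑ ψ ∈ hBfin.toFinset, ∑ φ ∈ hΦfin.toFinset,
      (if R φ ψ then Nat.card K * Nat.card (stF N ψ) else 0) = ∑ᶠ ψ ∈ B, nP K (stF N ψ) := by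
    rw [finsum_mem_eq_finite_toFinset_sum _ hBfin]
    refine Finset.sum_congr rfl fun ψ hψ => ?_
    exact hpsi ψ (hBfin.mem_toFinset.1 hψ)
  rw [← hL, ← hRR]
  exact hcomm

end Pool.Agent.FI2
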