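import Pool.Agent.helper7.FI2.SpecK

set_option autoImplicit false

namespace Pool.Agent.FI2

open Pool.Agent.helper58.DC Pool.Agent.DI Pool.Agent.GR Pool.Agent.OB Pool.Agent.DR Pool.Agent.FI

/-- characters at inverses -/
theorem KEE_conj (hGLP : GLP_stmt) (G : Type) [Group G] [Finite G] (H : Subgroup G) (ψ : G → ℂ)
    (hψ : ψ ∈ IrrOn H) (g : G) : (starRingEnd ℂ) (ψ g) = ψ g⁻¹ := by
  have hn : 0 < Nat.card G := Nat.card_pos
  have hcop : (Nat.card G - 1).Coprime (Nat.card G) := by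
    obtain ⟨m, hm⟩ : ∃ m, Nat.card G = m + 1 := ⟨Nat.card G - 1, by omega⟩
    rw [hm]
    simp
  have h1 := hGLP G (starRingAut : ℂ ≃+* ℂ) (Nat.card G - 1) hcop ?_ H ψ hψ g
  · have h2 : g ^ (Nat.card G - 1) = g⁻¹ := by
      have h3 : g ^ (Nat.card G - 1) * g = 1 := by
        rw [← pow_succ, Nat.sub_add_cancel hn]
        exact pow_card_eq_one'
      exact eq_inv_of_mul_eq_one_left h3
    rw [h2] at h1
    exact h1
  · intro ζ hζ
    have h4 : ζ ^ (Nat.card G - 1) * ζ = 1 := by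
      rw [← pow_succ, Nat.sub_add_cancel hn, hζ]
    have h5 : ‖ζ‖ = 1 := by
      have h6 : ‖ζ‖ ^ Nat.card G = 1 := by rw [← norm_pow, hζ, norm_one]
      exact (pow_eq_one_iff_of_nonneg (norm_nonneg _) hn.ne').1 h6
    have h7 : ζ⁻¹ = (starRingEnd ℂ) ζ := Complex.inv_eq_conj h5
    have h8 : ζ ^ (Nat.card G - 1) = ζ⁻¹ := eq_inv_of_mul_eq_one_left h4
    rw [h8, h7]
    rfl

theorem KEE_sum (hB2 : B2_stmt) (hGLP : GLP_stmt) (G : Type) [Group G] [Fintype G] (L : Subgroup G)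
    (χ : G → ℂ) (hχ : χ ∈ IrrOn L) : ∑ g : G, Complex.normSq (χ g) = (Nat.card L : ℝ) := by
  have h1 := ((hB2 G L).2 χ hχ).2.2.2.2 χ hχ
  rw [if_pos rfl, finsum_eq_sum_of_fintype] at h1
  have h2 : ((∑ g : G, Complex.normSq (χ g) : ℝ) : ℂ) = (Nat.card L : ℂ) := by
    rw [← h1, Complex.ofReal_sum]
    refine Finset.sum_congr rfl fun g _ => ?_
    rw [← KEE_conj hGLP G L χ hχ g, Complex.mul_conj]
  exact_mod_cast h2

theorem KEE (hB2 : B2_stmt) (_hIF : IF_stmt) (hGLP : GLP_stmt) : KEE_stmt := by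
  classical
  intro Γ _ _ K S hKS ψ hψ φ hφ e he
  have : Fintype Γ := Fintype.ofFinite Γ
  have h1 := KEE_sum hB2 hGLP Γ K ψ hψ
  have h2 := KEE_sum hB2 hGLP Γ S φ hφ
  have h3 : (e : ℝ) ^ 2 * ∑ g : Γ, Complex.normSq (ψ g) ≤ ∑ g : Γ, Complex.normSq (φ g) := by
    rw [Finset.mul_sum]
    refine Finset.sum_le_sum fun g _ => ?_
    by_cases hg : g ∈ K
    · rw [he g hg, Complex.normSq_mul, Complex.normSq_natCast]
      apply le_of_eq
      ring
    · rw [hψ.1 g hg, Complex.normSq_zero, mul_zero]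
      exact Complex.normSq_nonneg _
  rw [h1, h2] at h3
  exact_mod_cast h3

end Pool.Agent.FI2
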